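import Pool.Agent.helper36.LT.Structs

set_option autoImplicit false

/-! # LT-M7: lifting the rank data (MP_490288_al) -/

namespace Pool.Agent.helper18.LT

open Pool.Agent.helper34 Pool.Agent.helper36.LT

variable {S B C : Type}

theorem cl_eq_iff (X : Sys S B) (T T' : Ty S) (b b' : B) :
    cl X T b = cl X T' b' ↔ ∃ h : T = T', X.r T.1 b b' := by
  constructor
  · intro h
    have h1 : T = T' := congrArg Sigma.fst h
    subst h1
    refine ⟨rfl, ?_⟩
    have h2 : (Quotient.mk (X.setoid T) b) = Quotient.mk (X.setoid T) b' :=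
      eq_of_heq (Sigma.mk.inj_iff.1 h).2
    exact Quotient.exact h2
  · rintro ⟨rfl, h⟩
    have h2 : (Quotient.mk (X.setoid T) b) = Quotient.mk (X.setoid T) b' := Quotient.sound h
    exact congrArg (fun c => (⟨T, c⟩ : Vert X)) h2

theorem cl_eq (X : Sys S B) {T : Ty S} {b b' : B} (h : X.r T.1 b b') : cl X T b = cl X T b' :=
  (cl_eq_iff X T T b b').2 ⟨rfl, h⟩

theorem cl_exact (X : Sys S B) {T : Ty S} {b b' : B} (h : cl X T b = cl X T b') : X.r T.1 b b' := by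
  obtain ⟨_, h⟩ := (cl_eq_iff X T T b b').1 h
  exact h

theorem exists_cl (X : Sys S B) (v : Vert X) : ∃ T b, v = cl X T b := by
  obtain ⟨T, c⟩ := v
  induction c using Quotient.inductionOn with
  | _ b => exact ⟨T, b, rfl⟩

/-- the action on the vertices -/
@[instance_reducible]
def vact {N : Type} [Group N] [MulAction N B] (X : Sys S B) (hN : X.Inv N) : MulAction N (Vert X) where
  smul n v := ⟨v.1, Quotient.map (sa := X.setoid v.1) (sb := X.setoid v.1) (fun b => n • b)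
    (fun b b' h => hN n v.1.1 b b' h) v.2⟩
  one_smul v := by
    obtain ⟨T, b, rfl⟩ := exists_cl X v
    change cl X T ((1 : N) • b) = cl X T b
    rw [one_smul]
  mul_smul n n' v := by
    obtain ⟨T, b, rfl⟩ := exists_cl X v
    change cl X T ((n * n') • b) = cl X T (n • n' • b)
    rw [mul_smul]

theorem vact_cl {N : Type} [Group N] [MulAction N B] (X : Sys S B) (hN : X.Inv N) (n : N) (T : Ty S)
    (b : B) : (vact X hN).smul n (cl X T b) = cl X T (n • b) := rfl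

/-- the projection of the vertices -/
def proj (X : Sys S B) (Y : Sys S C) (q : B → C) (h : ∀ T b b', IsTy T → X.r T b b' → Y.r T (q b) (q b')) :
    Vert X → Vert Y := fun v =>
  ⟨v.1, Quotient.map (sa := X.setoid v.1) (sb := Y.setoid v.1) q
    (fun b b' hb => h v.1.1 b b' v.1.2 hb) v.2⟩

theorem proj_cl (X : Sys S B) (Y : Sys S C) (q : B → C)
    (h : ∀ T b b', IsTy T → X.r T b b' → Y.r T (q b) (q b')) (T : Ty S) (b : B) :
    proj X Y q h (cl X T b) = cl Y T (q b) := rfl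

/-- conclusion of the module M6 -/
def DescTree (V : Type) (X : FJ2.Complex2 V) : Prop :=
  ∀ (lt : V → V → Prop) (_ : WellFounded lt) (_ : ∀ x y, X.edge x y → lt x y ∨ lt y x)
    (Par : V → V → Prop) (nx : V → V → V) (dep : V → V → ℕ)
    (_ : ∀ x p, Par x p → X.edge x p ∧ lt p x)
    (_ : ∀ x y, X.edge x y → lt y x → ¬ Par x y →
      X.tri x y (nx x y) ∧ lt (nx x y) x ∧ dep x (nx x y) < dep x y)
    (_ : ∀ x y z, X.tri x y z → lt y x → lt z x →
      (¬ Par x y ∧ z = nx x y) ∨ (¬ Par x z ∧ y = nx x z)),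
    (SimpleGraph.fromRel Par).IsTree

/-- `lift_tree` modulo M6 and the simple connectedness of the realisation -/
theorem lift_tree_of (N : Type) [Group N] [MulAction N B]
    (X : Sys S B) (hDT : DescTree (Vert X) (cx X)) (hN : X.Inv N) (Y : Sys S C) (q : B → C)
    (hq : Function.Surjective q) (hq' : ∀ b b', q b = q b' ↔ ∃ n : N, n • b = b')
    (hr : ∀ T b b', IsTy T → (Y.r T (q b) (q b') ↔ ∃ n : N, X.r T b (n • b')))
    (Mk : Set S → C → Prop)
    (hMk : ∀ T b, IsTy T → (Mk T (q b) ↔ ∃ n ∈ X.stab N T b, n ≠ 1))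
    (hst : ∀ T T' b, IsTy T → IsTy T' → T ⊆ T' → Mk T (q b) → X.stab N T b = X.stab N T' b)
    (R : RankData Y Mk) (φ : N →* Multiplicative ℤ) (hφ : X.InjStab φ) : ActsOnTree N φ := by
  classical
  have hqn : ∀ (n : N) b, q (n • b) = q b := fun n b => ((hq' b (n • b)).2 ⟨n, rfl⟩).symm
  have hXY : ∀ T b b', IsTy T → X.r T b b' → Y.r T (q b) (q b') := by
    intro T b b' hT h
    rw [hr T b b' hT]
    exact ⟨1, by rwa [one_smul]⟩
  set π : Vert X → Vert Y := proj X Y q hXY with hπ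
  have hπc : ∀ T b, π (cl X T b) = cl Y T (q b) := fun T b => rfl
  -- marks are invariant
  have hMkr : ∀ T b b', IsTy T → Y.r T (q b) (q b') → Mk T (q b') → Mk T (q b) := by
    intro T b b' hT h h'
    obtain ⟨n, hn⟩ := (hr T b b' hT).1 h
    obtain ⟨k, hk, hk1⟩ := (hMk T b' hT).1 h'
    refine (hMk T b hT).2 ⟨n * k * n⁻¹, ?_, ?_⟩
    · change X.r T b ((n * k * n⁻¹) • b)
      have h1 : X.r T (n • b') (n • k • b') := hN n T _ _ hk
      have h2 : X.r T ((n * k * n⁻¹) • b) ((n * k * n⁻¹) • (n • b')) := hN _ T _ _ hn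
      have h3 : (n * k * n⁻¹) • (n • b') = n • k • b' := by
        rw [smul_smul, smul_smul]; congr 1; group
      rw [h3] at h2
      exact X.trans T _ _ _ hT (X.trans T _ _ _ hT hn h1) (X.symm T _ _ hT h2)
    · intro h1
      apply hk1
      have : k = n⁻¹ * (n * k * n⁻¹) * n := by group
      rw [this, h1]; group
  have hVMk : ∀ (T : Ty S) b, VMk Y Mk (cl Y T (q b)) → Mk T.1 (q b) := by
    rintro T b ⟨c, hc1, hc2⟩
    obtain ⟨b', rfl⟩ := hq c
    exact hMkr T.1 b b' T.2 (cl_exact Y hc1) hc2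
  -- edges and triangles
  have hedge : ∀ x y, (cx X).edge x y → (cx Y).edge (π x) (π y) := by
    rintro x y ⟨b, T, T', h, rfl, rfl⟩
    exact ⟨q b, T, T', h, rfl, rfl⟩
  have htri : ∀ x y z, (cx X).tri x y z → (cx Y).tri (π x) (π y) (π z) := by
    rintro x y z ⟨b, T, T', T'', h, h', h'', rfl, rfl, rfl⟩
    exact ⟨q b, T, T', T'', h, h', h'', rfl, rfl, rfl⟩
  -- existence of lifts
  have hex : ∀ x y w, (cx X).edge x y → (cx Y).tri (π x) (π y) w → ∃ z, (cx X).tri x y z ∧ π z = w := by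
    rintro x y w ⟨b, T, T', h, rfl, rfl⟩ ⟨c, T1, T2, T3, h12, h23, h13, e1, e2, e3⟩
    obtain ⟨b1, rfl⟩ := hq c
    rw [hπc] at e1 e2
    obtain ⟨f1, g1⟩ := (cl_eq_iff Y _ _ _ _).1 e1
    obtain ⟨f2, g2⟩ := (cl_eq_iff Y _ _ _ _).1 e2
    subst f1; subst f2
    obtain ⟨n, hn1, hn2⟩ : ∃ n : N, X.r T.1 b (n • b1) ∧ X.r T'.1 b (n • b1) := by
      rcases h with h | h
      · obtain ⟨n, hn⟩ := (hr T.1 b b1 T.2).1 g1
        exact ⟨n, hn, X.mono _ _ _ _ h.subset T.2 T'.2 hn⟩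
      · obtain ⟨n, hn⟩ := (hr T'.1 b b1 T'.2).1 g2
        exact ⟨n, X.mono _ _ _ _ h.subset T'.2 T.2 hn, hn⟩
    refine ⟨cl X T3 (n • b1), ⟨n • b1, T, T', T3, h12, h23, h13, cl_eq X hn1, cl_eq X hn2, rfl⟩, ?_⟩
    rw [hπc, hqn, e3]
  -- uniqueness of lifts
  have huniq : ∀ x y z z', (cx X).tri x y z → (cx X).tri x y z' → R.lt (π y) (π x) →
      π y ≠ R.par (π x) → π z = R.nx (π x) (π y) → π z' = R.nx (π x) (π y) → z = z' := by
    rintro x y z z' ⟨b, T, T', T3, h12, h23, h13, rfl, rfl, rfl⟩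
      ⟨b', U, U', U3, k12, k23, k13, e1, e2, rfl⟩ hlt hne hz hz'
    obtain ⟨f1, g1⟩ := (cl_eq_iff X _ _ _ _).1 e1
    obtain ⟨f2, g2⟩ := (cl_eq_iff X _ _ _ _).1 e2
    subst f1; subst f2
    have e4 : cl Y T3 (q b) = cl Y U3 (q b') := by
      have := hz.trans hz'.symm
      rwa [hπc, hπc] at this
    obtain ⟨f3, g3⟩ := (cl_eq_iff Y _ _ _ _).1 e4
    subst f3
    obtain ⟨n, hn⟩ := (hr T3.1 b b' T3.2).1 g3
    apply cl_eq
    -- the smaller type
    obtain ⟨m, hm1, hm2, hm, gm⟩ : ∃ m : Ty S, m.1 ⊆ T.1 ∧ m.1 ⊆ T'.1 ∧ (m = T ∨ m = T') ∧ X.r m.1 b b' := by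
      rcases h12 with h | h
      · exact ⟨T, subset_rfl, h.subset, Or.inl rfl, g1⟩
      · exact ⟨T', h.subset, subset_rfl, Or.inr rfl, g2⟩
    have hm3 : m.1 ⊂ T3.1 ∨ T3.1 ⊂ m.1 := by
      rcases hm with rfl | rfl
      · exact h13
      · exact h23
    rcases hm3 with hm3 | hm3
    · exact X.mono _ _ _ _ hm3.subset m.2 T3.2 gm
    · have hn' : X.r m.1 b (n • b') := X.mono _ _ _ _ hm3.subset T3.2 m.2 hn
      have hs : X.r m.1 b' (n • b') := X.trans _ _ _ _ m.2 (X.symm _ _ _ m.2 gm) hn'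
      by_cases hn1 : n = 1
      · rwa [hn1, one_smul] at hn
      have hMb' : Mk m.1 (q b') := (hMk m.1 b' m.2).2 ⟨n, hs, hn1⟩
      have hMb : Mk m.1 (q b) := hMkr m.1 b b' m.2 (hXY _ _ _ m.2 gm) hMb'
      have hup : ∀ U : Ty S, m.1 ⊆ U.1 → VMk Y Mk (cl Y U (q b)) := by
        intro U hU
        refine ⟨q b, rfl, ?_⟩
        obtain ⟨k, hk, hk1⟩ := (hMk m.1 b m.2).1 hMb
        rw [hst m.1 U.1 b m.2 U.2 hU hMb] at hk
        exact (hMk U.1 b U.2).2 ⟨k, hk, hk1⟩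
      have h1 := R.mark_nx (π (cl X T b)) (π (cl X T' b)) (hedge _ _ ⟨b, T, T', h12, rfl, rfl⟩) hlt hne
        (hup T hm1) (hup T' hm2)
      rw [← hz] at h1
      have h2 : Mk T3.1 (q b) := hVMk T3 b h1
      have h3 := hst T3.1 m.1 b T3.2 m.2 hm3.subset h2
      have h4 : n ∈ X.stab N m.1 b := by
        change X.r m.1 b (n • b)
        exact X.trans _ _ _ _ m.2 hn' (X.symm _ _ _ m.2 (hN n _ _ _ gm))
      rw [← h3] at h4
      have h5 : X.r T3.1 (n • b) (n • b') := X.trans _ _ _ _ T3.2 (X.symm _ _ _ T3.2 h4) hn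
      have h6 := hN n⁻¹ _ _ _ h5
      rwa [inv_smul_smul, inv_smul_smul] at h6
  -- the data upstairs
  set Par : Vert X → Vert X → Prop := fun x p => (cx X).edge x p ∧ π p = R.par (π x) ∧ R.lt (π p) (π x)
    with hPar
  have hchoice : ∀ x y, ∃ z, (cx X).edge x y → R.lt (π y) (π x) → ¬ Par x y →
      (cx X).tri x y z ∧ π z = R.nx (π x) (π y) := by
    intro x y
    by_cases h : (cx X).edge x y ∧ R.lt (π y) (π x) ∧ ¬ Par x y
    · obtain ⟨h1, h2, h3⟩ := h
      have h4 : π y ≠ R.par (π x) := fun h => h3 ⟨h1, h, h2⟩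
      obtain ⟨h5, -, -⟩ := R.nx_tri (π x) (π y) (hedge _ _ h1) h2 h4
      obtain ⟨z, hz1, hz2⟩ := hex x y _ h1 h5
      exact ⟨z, fun _ _ _ => ⟨hz1, hz2⟩⟩
    · exact ⟨x, fun h1 h2 h3 => absurd ⟨h1, h2, h3⟩ h⟩
  choose nx hnx using hchoice
  have htree := hDT (fun x y => R.lt (π x) (π y)) (InvImage.wf π R.wf)
    (fun x y h => R.total _ _ (hedge x y h)) Par nx (fun x y => R.dep (π x) (π y))
    (fun x p h => ⟨h.1, h.2.2⟩)
    (by
      intro x y h1 h2 h3
      obtain ⟨h4, h5⟩ := hnx x y h1 h2 h3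
      have h6 : π y ≠ R.par (π x) := fun h => h3 ⟨h1, h, h2⟩
      obtain ⟨h7, h8, h9⟩ := R.nx_tri (π x) (π y) (hedge _ _ h1) h2 h6
      refine ⟨h4, ?_, ?_⟩
      · simp only [h5]; exact h8
      · simp only [h5]; exact h9)
    (by
      intro x y z h1 h2 h3
      have hxy : (cx X).edge x y := (cx X).tri_edge _ _ _ h1
      have hxz : (cx X).edge x z := (cx X).tri_edge'' h1
      have h1' : (cx X).tri x z y := (cx X).tri_swap' h1
      rcases R.tri_nx _ _ _ (htri _ _ _ h1) h2 h3 with ⟨h4, h5⟩ | ⟨h4, h5⟩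
      · left
        have h6 : ¬ Par x y := fun h => h4 h.2.1
        obtain ⟨h7, h8⟩ := hnx x y hxy h2 h6
        exact ⟨h6, huniq x y z (nx x y) h1 h7 h2 h4 h5 h8⟩
      · right
        have h6 : ¬ Par x z := fun h => h4 h.2.1
        obtain ⟨h7, h8⟩ := hnx x z hxz h3 h6
        exact ⟨h6, huniq x z y (nx x z) h1' h7 h3 h4 h5 h8⟩)
  refine ⟨Vert X, vact X hN, Par, ?_, ?_, htree, ?_⟩
  · intro n x p h
    have hπn : ∀ v : Vert X, π ((vact X hN).smul n v) = π v := by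
      intro v
      obtain ⟨T, b, rfl⟩ := exists_cl X v
      rw [vact_cl, hπc, hπc, hqn]
    obtain ⟨⟨b, T, T', h1, rfl, rfl⟩, h2, h3⟩ := h
    change (cx X).edge ((vact X hN).smul n (cl X T b)) ((vact X hN).smul n (cl X T' b)) ∧
      π ((vact X hN).smul n (cl X T' b)) = R.par (π ((vact X hN).smul n (cl X T b))) ∧
      R.lt (π ((vact X hN).smul n (cl X T' b))) (π ((vact X hN).smul n (cl X T b)))
    rw [hπn, hπn]
    exact ⟨⟨n • b, T, T', h1, rfl, rfl⟩, h2, h3⟩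
  · intro x p h h'
    exact R.wf.asymmetric _ _ h.2.2 h'.2.2
  · intro v n h hn
    obtain ⟨T, b, rfl⟩ := exists_cl X v
    have h' : cl X T (n • b) = cl X T b := h
    exact hφ T.1 b T.2 n (X.symm _ _ _ T.2 (cl_exact X h')) hn

end Pool.Agent.helper18.LT
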