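import Pool.Agent.helper18.LT.Lift
import Pool.Agent.helper60.LT.Tree

set_option autoImplicit false

namespace Pool.Agent.helper18.LT

open Pool.Agent.helper34 Pool.Agent.helper36.LT

/-- M7 with the simple connectedness of the realisation as a hypothesis (`cx_sc` of M1) -/
theorem lift_tree' {S B C : Type} (N : Type) [Group N] [MulAction N B]
    (X : Sys S B) (hsc : FJ2.SimplyConnected (cx X)) (hN : X.Inv N) (Y : Sys S C) (q : B → C)
    (hq : Function.Surjective q) (hq' : ∀ b b', q b = q b' ↔ ∃ n : N, n • b = b')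
    (hr : ∀ T b b', IsTy T → (Y.r T (q b) (q b') ↔ ∃ n : N, X.r T b (n • b')))
    (Mk : Set S → C → Prop)
    (hMk : ∀ T b, IsTy T → (Mk T (q b) ↔ ∃ n ∈ X.stab N T b, n ≠ 1))
    (hst : ∀ T T' b, IsTy T → IsTy T' → T ⊆ T' → Mk T (q b) → X.stab N T b = X.stab N T' b)
    (R : RankData Y Mk) (φ : N →* Multiplicative ℤ) (hφ : X.InjStab φ) : ActsOnTree N φ :=
  lift_tree_of N X (fun lt wf total Par nx dep h1 h2 h3 =>
    Pool.Agent.helper60.LT.descending_tree (cx X) hsc lt wf total Par nx dep h1 h2 h3)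
    hN Y q hq hq' hr Mk hMk hst R φ hφ

end Pool.Agent.helper18.LT
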